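import Pool.Agent.Helper51.SDL.Goals
import Pool.Agent.Helper51.REC.Asm

/-!
# Project SD (MP_fc6b1e_nt), packet SDL-RNK: the ranks of groups of units in a cyclic extension
-/

set_option autoImplicit false

namespace Pool.Agent.Helper80.SDL.RNK

open NumberField Module IsDedekindDomain
open Pool.Agent.Helper51.RP Pool.Agent.Helper51.REC Pool.Agent.Helper16.SD
open Pool.Agent.Helper51.SDL (S_RNK)
open Pool.Agent.Helper90.REC (val_one_iff two_rank)
open Pool.Agent.Helper13.REC (rank_le fin_of_inj)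

/-- a power of every unit is congruent to `1` modulo `p^M` -/
theorem exists_exp (p : ℕ) [Fact p.Prime] (L : Type) [Field L] [NumberField L] (M : ℕ) :
    ∃ m : ℕ, m ≠ 0 ∧ ∀ u : Lˣ, (∀ w : HeightOneSpectrum (𝓞 L), w.valuation L (u : L) = 1) →
      Cong p {w | w.valuation L (p : L) < 1} M ((u ^ m : Lˣ) : L) := by
  have hp : p.Prime := Fact.out
  let I : Ideal (𝓞 L) := Ideal.span {((p : 𝓞 L) ^ M)}
  have hI : I ≠ ⊥ := by
    rw [Ne, Ideal.span_singleton_eq_bot]
    exact pow_ne_zero _ (Nat.cast_ne_zero.2 hp.ne_zero)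
  have hfin : Finite (𝓞 L ⧸ I) := Ideal.finiteQuotientOfFreeOfNeBot _ hI
  refine ⟨Nat.card (𝓞 L ⧸ I)ˣ, Nat.card_pos.ne', fun u hu => ?_⟩
  obtain ⟨x, hx⟩ := HeightOneSpectrum.mem_integers_of_valuation_le_one (R := 𝓞 L) L (u : L)
    (fun w => (hu w).le)
  obtain ⟨y, hy⟩ := HeightOneSpectrum.mem_integers_of_valuation_le_one (R := 𝓞 L) L
    ((u⁻¹ : Lˣ) : L) (fun w => by
      rw [Units.val_inv_eq_inv_val, map_inv₀, hu w, inv_one])
  have hinj : Function.Injective (algebraMap (𝓞 L) L) := RingOfIntegers.coe_injective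
  have hxy : x * y = 1 := by
    apply hinj
    rw [map_mul, hx, hy, map_one, ← Units.val_mul, mul_inv_cancel, Units.val_one]
  let v : (𝓞 L)ˣ := ⟨x, y, hxy, by rw [mul_comm, hxy]⟩
  have h1 : (Units.map (Ideal.Quotient.mk I : 𝓞 L →* 𝓞 L ⧸ I) v) ^ Nat.card (𝓞 L ⧸ I)ˣ = 1 :=
    pow_card_eq_one'
  have h2 : Ideal.Quotient.mk I (x ^ Nat.card (𝓞 L ⧸ I)ˣ) = Ideal.Quotient.mk I 1 := by
    rw [map_pow, map_one]
    exact congrArg Units.val h1
  rw [Ideal.Quotient.eq, Ideal.mem_span_singleton] at h2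
  obtain ⟨z, hz⟩ := h2
  intro W _
  have h3 : ((u ^ Nat.card (𝓞 L ⧸ I)ˣ : Lˣ) : L) - 1 = (p : L) ^ M * algebraMap (𝓞 L) L z := by
    rw [Units.val_pow_eq_pow_val, ← hx, ← map_pow, ← map_one (algebraMap (𝓞 L) L), ← map_sub, hz,
      map_mul, map_pow, map_natCast]
  rw [h3, map_mul, map_pow]
  exact mul_le_of_le_one_right' (W.valuation_le_one z)

theorem fin_unit (L : Type) [Field L] [NumberField L] :
    Module.Finite ℤ (Additive ((∅ : Set (HeightOneSpectrum (𝓞 L))).unit L)) := by
  have h := (h_rnk L ∅ Set.finite_empty).1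
  rw [Module.Finite.iff_addGroup_fg]
  exact GroupFG.iff_add_fg.1 h

theorem rank_unit (L : Type) [Field L] [NumberField L] [IsTotallyComplex L] :
    2 * (finrank ℤ (Additive ((∅ : Set (HeightOneSpectrum (𝓞 L))).unit L)) + 1) =
      finrank ℚ L := by
  have h := (h_rnk L ∅ Set.finite_empty).2
  rw [Set.ncard_empty, add_zero] at h
  rw [h]
  exact two_rank L

theorem t_pow {F L : Type} [Field F] [NumberField F] [Field L] [NumberField L] [Algebra F L]
    (σ : L ≃ₐ[F] L) (E : Subgroup Lˣ) (t : E ≃* E)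
    (ht : ∀ u : E, (((t u : E) : Lˣ) : L) = σ ((u : Lˣ) : L)) (n : ℕ) (u : E) :
    ((((t ^ n : MulAut E) u : E) : Lˣ) : L) = (σ ^ n) ((u : Lˣ) : L) := by
  induction n generalizing u with
  | zero => rfl
  | succ n ih =>
    rw [pow_succ, pow_succ]
    have h1 := ih (t u)
    rw [ht] at h1
    exact h1

theorem t : S_RNK := by
  intro p _ F L _ _ _ _ _ _ hcF k σ hdeg hσ E M hE hE2 t ht
  have hp : p.Prime := Fact.out
  have hEle : E ≤ (∅ : Set (HeightOneSpectrum (𝓞 L))).unit L := fun u hu w _ => hE2 u hu w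
  have hfinL := fin_unit L
  have hfinE : Module.Finite ℤ (Additive E) :=
    fin_of_inj (Subgroup.inclusion hEle) (Subgroup.inclusion_injective hEle)
  have hcard : Nat.card (L ≃ₐ[F] L) = p ^ k := by rw [IsGalois.card_aut_eq_finrank, hdeg]
  have hord : orderOf σ = p ^ k := by
    rw [← hcard]
    refine orderOf_eq_card_of_forall_mem_powers fun g => ?_
    obtain ⟨i, hi⟩ := hσ g
    exact ⟨i, hi.symm⟩
  have hσk : σ ^ p ^ k = 1 := by rw [← hord, pow_orderOf_eq_one]
  refine ⟨?_, ?_, ?_⟩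
  · rw [GroupFG.iff_add_fg, ← Module.Finite.iff_addGroup_fg]
    exact hfinE
  · intro u
    apply Subtype.ext
    apply Units.ext
    rw [t_pow σ E t ht, hσk]
    rfl
  intro i hi
  let N : IntermediateField F L := IntermediateField.fixedField (Subgroup.zpowers (σ ^ p ^ i))
  have hnN : NumberField N := NumberField.of_module_finite F N
  have hcN : IsTotallyComplex N := isTotallyComplex_of_algebra F N
  have hgN : IsGalois N L := inferInstance
  have hd1 : finrank N L = p ^ (k - i) := by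
    rw [IntermediateField.finrank_fixedField_eq_card, Nat.card_zpowers, orderOf_pow, hord,
      Nat.gcd_eq_right (pow_dvd_pow p hi), Nat.pow_div hi hp.pos]
  have hd2 : finrank F N = p ^ i := by
    have h1 : finrank F N * finrank N L = finrank F L := finrank_mul_finrank F N L
    rw [hd1, hdeg, ← Nat.add_sub_cancel' hi, Nat.add_sub_cancel_left, pow_add] at h1
    exact Nat.eq_of_mul_eq_mul_right (pow_pos hp.pos _) h1
  have hd3 : finrank ℚ N = finrank ℚ F * p ^ i := by
    rw [← hd2]
    exact (finrank_mul_finrank ℚ F N).symm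
  have hmemN : ∀ x : L, x ∈ N ↔ (σ ^ p ^ i) x = x := by
    intro x
    rw [IntermediateField.mem_fixedField_iff]
    constructor
    · intro h
      exact h _ (Subgroup.mem_zpowers _)
    · intro h g hg
      obtain ⟨j, rfl⟩ := Subgroup.mem_zpowers_iff.1 hg
      have h1 : (σ ^ p ^ i) ∈ MulAction.stabilizer (L ≃ₐ[F] L) x := h
      exact Subgroup.zpow_mem _ h1 j
  obtain ⟨m, hm0, hm⟩ := exists_exp p L M
  have hfinN := fin_unit N
  have hfinT : Module.Finite ℤ (Additive (fixG (t ^ (p ^ i) : MulAut E))) :=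
    fin_of_inj (fixG (t ^ (p ^ i) : MulAut E)).subtype (Subgroup.subtype_injective _)
  -- the two inequalities
  have hle : finrank ℤ (Additive (fixG (t ^ (p ^ i) : MulAut E))) ≤
      finrank ℤ (Additive ((∅ : Set (HeightOneSpectrum (𝓞 N))).unit N)) := by
    have hfix : ∀ u : fixG (t ^ (p ^ i) : MulAut E), (((u : E) : Lˣ) : L) ∈ N := by
      intro u
      rw [hmemN, ← t_pow σ E t ht]
      have h1 : (t ^ (p ^ i) : MulAut E) (u : E) = u := u.2
      rw [h1]
    let f : fixG (t ^ (p ^ i) : MulAut E) →* Nˣ :=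
      { toFun := fun u => Units.mk0 (⟨(((u : E) : Lˣ) : L), hfix u⟩ : N) (fun h => by
          have h1 := congrArg (algebraMap N L) h
          rw [map_zero] at h1
          exact (((u : E) : Lˣ)).ne_zero h1)
        map_one' := Units.ext (Subtype.ext rfl)
        map_mul' := fun u v => Units.ext (Subtype.ext rfl) }
    have hf : ∀ u, f u ∈ (∅ : Set (HeightOneSpectrum (𝓞 N))).unit N := by
      intro u v _
      obtain ⟨W, hW⟩ := Pool.Agent.Helper42.RD.exists_bel (M₁ := L) v
      have h1 : W.valuation L (algebraMap N L (f u : N)) = 1 := hE2 _ (u : E).2 W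
      rw [val_one_iff, hW] at h1
      exact h1
    refine rank_le (p := 1) (f.codRestrict _ hf) one_ne_zero fun u hu => ?_
    rw [pow_one]
    have h1 := congrArg (fun z : (∅ : Set (HeightOneSpectrum (𝓞 N))).unit N =>
      algebraMap N L (((z : Nˣ) : N))) hu
    apply Subtype.ext
    apply Subtype.ext
    apply Units.ext
    exact h1
  have hge : finrank ℤ (Additive ((∅ : Set (HeightOneSpectrum (𝓞 N))).unit N)) ≤
      finrank ℤ (Additive (fixG (t ^ (p ^ i) : MulAut E))) := by
    let j : (∅ : Set (HeightOneSpectrum (𝓞 N))).unit N →* Lˣ :=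
      (Units.map (algebraMap N L : N →* L)).comp (Subgroup.subtype _)
    have hj1 : ∀ x (W : HeightOneSpectrum (𝓞 L)), W.valuation L ((j x : Lˣ) : L) = 1 := by
      intro x W
      change W.valuation L (algebraMap N L ((x : Nˣ) : N)) = 1
      rw [val_one_iff]
      exact x.2 _ (fun h => h)
    have hj2 : ∀ x, (j x) ^ m ∈ E := by
      intro x
      apply hE
      · intro w
        rw [Units.val_pow_eq_pow_val, map_pow, hj1, one_pow]
      · exact hm _ (hj1 x)
    let g1 : (∅ : Set (HeightOneSpectrum (𝓞 N))).unit N →* E :=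
      ((powMonoidHom m).comp j).codRestrict E hj2
    have hg1 : ∀ x, g1 x ∈ fixG (t ^ (p ^ i) : MulAut E) := by
      intro x
      change (t ^ (p ^ i) : MulAut E) (g1 x) = g1 x
      apply Subtype.ext
      apply Units.ext
      rw [t_pow σ E t ht, ← hmemN]
      change ((j x ^ m : Lˣ) : L) ∈ N
      rw [Units.val_pow_eq_pow_val]
      exact pow_mem (((x : Nˣ) : N)).2 m
    refine rank_le (p := m) (g1.codRestrict _ hg1) hm0 fun x hx => ?_
    have h1 := congrArg (fun z : fixG (t ^ (p ^ i) : MulAut E) => (((z : E) : Lˣ) : L)) hx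
    apply Subtype.ext
    apply Units.ext
    apply (algebraMap N L).injective
    exact h1
  have h5 := le_antisymm hle hge
  rw [h5]
  have h6 := rank_unit N
  have h7 := rank_unit F
  rw [hd3, ← h7] at h6
  rw [← h7, Nat.mul_div_cancel_left _ two_pos]
  have h8 : 2 * (finrank ℤ (Additive ((∅ : Set (HeightOneSpectrum (𝓞 N))).unit N)) + 1) =
      2 * ((finrank ℤ (Additive ((∅ : Set (HeightOneSpectrum (𝓞 F))).unit F)) + 1) * p ^ i) := by
    rw [h6, mul_assoc]
  exact Nat.eq_of_mul_eq_mul_left two_pos h8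

end Pool.Agent.Helper80.SDL.RNK
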